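import Mathlib

/-!
# Matchings of adjacent integers

`K U a n` is the number of ways of choosing disjoint pairs `{x, x+1}` inside `U ∩ [a, a+n)`.
-/

set_option autoImplicit false

namespace Pool.Agent.Helper166_DP

def K (U : Finset ℕ) (a : ℕ) : ℕ → ℕ
  | 0 => 1
  | 1 => 1
  | (n + 2) => K U a (n + 1) + if (a + n ∈ U ∧ a + n + 1 ∈ U) then K U a n else 0

lemma K_zero (U : Finset ℕ) (a : ℕ) : K U a 0 = 1 := rfl
lemma K_one (U : Finset ℕ) (a : ℕ) : K U a 1 = 1 := rfl
lemma K_succ_succ (U : Finset ℕ) (a n : ℕ) :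
    K U a (n + 2) = K U a (n + 1) + if (a + n ∈ U ∧ a + n + 1 ∈ U) then K U a n else 0 := rfl

lemma K_congr (U V : Finset ℕ) (a : ℕ) : ∀ n, (∀ x, a ≤ x → x < a + n → (x ∈ U ↔ x ∈ V)) →
    K U a n = K V a n
  | 0, _ => rfl
  | 1, _ => rfl
  | (n + 2), h => by
    rw [K_succ_succ, K_succ_succ, K_congr U V a (n + 1) (fun x h1 h2 => h x h1 (by omega)),
      K_congr U V a n (fun x h1 h2 => h x h1 (by omega))]
    have h1 := h (a + n) (by omega) (by omega)
    have h2 := h (a + n + 1) (by omega) (by omega)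
    simp only [h1, h2]

lemma K_mono (U : Finset ℕ) (a : ℕ) : ∀ n, K U a n ≤ K U a (n + 1)
  | 0 => le_rfl
  | (n + 1) => by rw [K_succ_succ]; exact Nat.le_add_right _ _

lemma K_split (U : Finset ℕ) (a p : ℕ) : ∀ q, K U a (p + 1 + (q + 1)) =
    K U a (p + 1) * K U (a + p + 1) (q + 1) +
      if (a + p ∈ U ∧ a + p + 1 ∈ U) then K U a p * K U (a + p + 2) q else 0
  | 0 => by
    have : p + 1 + (0 + 1) = p + 2 := by ring
    rw [this, K_succ_succ]
    simp [K_one, K_zero]
  | 1 => by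
    have e : p + 1 + (1 + 1) = (p + 1) + 2 := by ring
    rw [e, K_succ_succ, K_succ_succ U a p]
    have e2 : (1 + 1) = 0 + 2 := rfl
    rw [e2, K_succ_succ U (a + p + 1) 0]
    have e3 : a + (p + 1) = a + p + 1 := by ring
    simp only [e3, K_one, K_zero, Nat.add_zero, mul_one, zero_add]
    split_ifs <;> ring
  | (q + 2) => by
    have e : p + 1 + (q + 2 + 1) = (p + 1 + (q + 1)) + 2 := by ring
    have e1 : p + 1 + (q + 1) + 1 = p + 1 + (q + 1 + 1) := by ring
    rw [e, K_succ_succ, e1, K_split U a p (q + 1), K_split U a p q]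
    have e2 : q + 2 + 1 = (q + 1) + 2 := by ring
    rw [e2, K_succ_succ U (a + p + 1) (q + 1), K_succ_succ U (a + p + 2) q]
    have e3 : a + (p + 1 + (q + 1)) = a + p + 1 + (q + 1) := by ring
    have e4 : a + p + 2 + q = a + p + 1 + (q + 1) := by ring
    rw [e3, e4]
    split_ifs <;> ring

/-- nothing at `a + p`: the count is a product -/
lemma K_absent (U : Finset ℕ) (a p q : ℕ) (h : a + p ∉ U) :
    K U a (p + 1 + q) = K U a p * K U (a + p + 1) q := by
  have h1 : K U a (p + 1) = K U a p := by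
    cases p with
    | zero => rfl
    | succ p =>
      rw [K_succ_succ, if_neg (fun hh => h (by simpa [add_assoc] using hh.2)), add_zero]
  cases q with
  | zero => simp [K_zero, h1]
  | succ q => rw [K_split, if_neg (fun hh => h hh.1), h1, add_zero]

lemma K_empty (U : Finset ℕ) (a : ℕ) : ∀ n, (∀ x, a ≤ x → x < a + n → x ∉ U) → K U a n = 1
  | 0, _ => rfl
  | 1, _ => rfl
  | (n + 2), h => by
    rw [K_succ_succ, K_empty U a (n + 1) (fun x h1 h2 => h x h1 (by omega)),
      if_neg (fun hh => h (a + n) (by omega) (by omega) hh.1)]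

/-- nothing below `l` -/
lemma K_low (U : Finset ℕ) (l n : ℕ) (h : ∀ x, x < l → x ∉ U) : K U 0 (l + n) = K U l n := by
  cases l with
  | zero => simp
  | succ l =>
    have e : K U 0 (l + 1 + n) = K U 0 l * K U (0 + l + 1) n :=
      K_absent U 0 l n (by simpa using h l (by omega))
    rw [e, K_empty U 0 l (fun x _ h2 => h x (by omega)), one_mul, zero_add]

/-- nothing in `[a + p, a + p + q)` -/
lemma K_high (U : Finset ℕ) (a p : ℕ) : ∀ q, (∀ x, a + p ≤ x → x < a + p + q → x ∉ U) →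
    K U a (p + q) = K U a p
  | 0, _ => rfl
  | (q + 1), h => by
    have e : p + (q + 1) = (p + q) + 1 + 0 := by ring
    rw [e, K_absent U a (p + q) 0 (by
      have := h (a + (p + q)) (by omega) (by omega)
      simpa using this), K_zero, mul_one]
    exact K_high U a p q (fun x h1 h2 => h x h1 (by omega))

/-- removal of the two smallest candidates -/
lemma K_min (U : Finset ℕ) (l M : ℕ) (hl : l ∈ U) (hmin : ∀ x ∈ U, l ≤ x) (hM : l < M) :
    K (U.erase l) 0 M + (if (l + 1 ∈ U ∧ l + 1 < M) then K (U.erase (l + 1)) 0 M else 0)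
      = K U 0 M := by
  obtain ⟨q, rfl⟩ : ∃ q, M = l + 1 + q := ⟨M - (l + 1), by omega⟩
  have hlow : ∀ x, x < l → x ∉ U := fun x hx hxU => by have := hmin x hxU; omega
  have h1 : K (U.erase l) 0 (l + 1 + q) = K U (l + 1) q := by
    rw [K_low (U.erase l) (l + 1) q]
    · exact K_congr _ _ _ _ (fun x h1 h2 => by simp; intro _; omega)
    · intro x hx
      rw [Finset.mem_erase, not_and]
      intro h1
      exact hlow x (by omega)
  have h2 : K U 0 (l + 1 + q) = K U l (1 + q) := by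
    rw [add_assoc]; exact K_low U l (1 + q) hlow
  rw [h1, h2]
  cases q with
  | zero => simp [K_zero, K_one]
  | succ q =>
    have e : 1 + (q + 1) = 0 + 1 + (q + 1) := by ring
    have e0 : K U l (0 + 1) = 1 := rfl
    rw [e, K_split U l 0 q, e0, one_mul]
    simp only [K_zero, one_mul, add_zero]
    by_cases hh : l + 1 ∈ U
    · have h3 : K (U.erase (l + 1)) 0 (l + 1 + (q + 1)) = K U (l + 2) q := by
        have e2 : l + 1 + (q + 1) = (l + 1) + 1 + q := by ring
        rw [e2, K_absent (U.erase (l + 1)) 0 (l + 1) q (by simp)]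
        have h4 : K (U.erase (l + 1)) 0 (l + 1) = 1 := by
          have : K (U.erase (l + 1)) 0 (l + 1) = K (U.erase (l + 1)) l 1 :=
            K_low _ _ _ (fun x hx => by
              rw [Finset.mem_erase, not_and]; intro _; exact hlow x hx)
          rw [this, K_one]
        rw [h4, one_mul, zero_add]
        exact K_congr _ _ _ _ (fun x h1 h2 => by simp; intro _; omega)
      rw [if_pos ⟨hh, by omega⟩, if_pos ⟨hl, hh⟩, h3]
    · rw [if_neg (fun h => hh h.1), if_neg (fun h => hh h.2)]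

/-- removal of the two largest candidates below `M` -/
lemma K_max (U : Finset ℕ) (R M : ℕ) (hR : R ∈ U) (hRM : R < M)
    (hmax : ∀ x ∈ U, x < M → x ≤ R) :
    K (U.erase R) 0 M + (if (1 ≤ R ∧ R - 1 ∈ U) then K (U.erase (R - 1)) 0 M else 0)
      = K U 0 M ∧
    K (U.erase R) 0 M = K U 0 R ∧ (1 ≤ R ∧ R - 1 ∈ U → K (U.erase (R - 1)) 0 M = K U 0 (R - 1)) := by
  obtain ⟨q, rfl⟩ : ∃ q, M = R + 1 + q := ⟨M - (R + 1), by omega⟩
  have hhigh : ∀ x, R + 1 ≤ x → x < R + 1 + q → x ∉ U := fun x h1 h2 hx => by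
    have := hmax x hx h2; omega
  have h1 : K (U.erase R) 0 (R + 1 + q) = K U 0 R := by
    rw [K_absent (U.erase R) 0 R q (by simp), K_empty (U.erase R) (0 + R + 1) q
      (fun x h1 h2 => by
        rw [Finset.mem_erase, not_and]; intro _; exact hhigh x (by omega) (by omega)), mul_one]
    exact K_congr _ _ _ _ (fun x h1 h2 => by simp; intro _; omega)
  have h2 : 1 ≤ R ∧ R - 1 ∈ U → K (U.erase (R - 1)) 0 (R + 1 + q) = K U 0 (R - 1) := by
    rintro ⟨hR1, hR2⟩
    obtain ⟨s, rfl⟩ : ∃ s, R = s + 1 := ⟨R - 1, by omega⟩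
    simp only [Nat.add_sub_cancel] at hR2 ⊢
    have e : s + 1 + 1 + q = s + 1 + (1 + q) := by ring
    rw [e, K_absent (U.erase s) 0 s (1 + q) (by simp)]
    have h3 : K (U.erase s) (0 + s + 1) (1 + q) = 1 := by
      rw [K_high (U.erase s) (0 + s + 1) 1 q (fun x h1 h2 => by
        rw [Finset.mem_erase, not_and]; intro _; exact hhigh x (by omega) (by omega)), K_one]
    rw [h3, mul_one]
    exact K_congr _ _ _ _ (fun x h1 h2 => by simp; intro _; omega)
  refine ⟨?_, h1, h2⟩
  have h4 : K U 0 (R + 1 + q) = K U 0 (R + 1) :=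
    K_high U 0 (R + 1) q (fun x h1 h2 => hhigh x (by omega) (by omega))
  rw [h1, h4]
  by_cases hc : 1 ≤ R ∧ R - 1 ∈ U
  · rw [if_pos hc, h2 hc]
    obtain ⟨s, rfl⟩ : ∃ s, R = s + 1 := ⟨R - 1, by omega⟩
    simp only [Nat.add_sub_cancel] at hc ⊢
    rw [K_succ_succ, zero_add, if_pos ⟨hc.2, hR⟩]
  · rw [if_neg hc]
    cases R with
    | zero => rfl
    | succ s =>
      rw [K_succ_succ, zero_add, if_neg (fun hh => hc ⟨by omega, by simpa using hh.1⟩)]

end Pool.Agent.Helper166_DP
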