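import Pool.Agent.Helper166_DP.Proc

/-! # The inequality between the two processes -/

set_option autoImplicit false

namespace Pool.Agent.Helper166_DP

lemma upd_eq (U N : Finset ℕ) (M x : ℕ) (hN : U.filter (fun y => M ≤ y) = N) :
    max M (upd U x) = max M (upd (N ∪ Finset.range M) x) := by
  have key : ∀ t, M ≤ t → (t < upd U x ↔ t < upd (N ∪ Finset.range M) x) := by
    intro t ht
    rw [lt_upd, lt_upd]
    subst hN
    constructor
    · rintro ⟨a, h1, h2, h3⟩
      refine ⟨a, ?_, h2, h3⟩
      simp only [Finset.mem_union, Finset.mem_filter, Finset.mem_range, not_or, not_and, not_lt]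
      exact ⟨fun h => absurd h h1, by omega⟩
    · rintro ⟨a, h1, h2, h3⟩
      refine ⟨a, ?_, h2, h3⟩
      simp only [Finset.mem_union, Finset.mem_filter, Finset.mem_range, not_or, not_and,
        not_lt] at h1
      intro h
      exact h1.1 h (by omega)
  apply le_antisymm
  · apply max_le (le_max_left _ _)
    by_contra h
    rw [not_le] at h
    have h1 : max M (upd (N ∪ Finset.range M) x) < upd U x := h
    have h2 := (key _ (le_max_left _ _)).1 h1
    exact absurd h2 (not_lt.2 (le_max_right _ _))
  · apply max_le (le_max_left _ _)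
    by_contra h
    rw [not_le] at h
    have h2 := (key _ (le_max_left _ _)).2 h
    exact absurd h2 (not_lt.2 (le_max_right _ _))

lemma filter_erase_aux (U N : Finset ℕ) (M M' x : ℕ) (hN : U.filter (fun y => M ≤ y) = N)
    (hM : M ≤ M') : (U.erase x).filter (fun y => M' ≤ y) = (N.erase x).filter (fun y => M' ≤ y) := by
  subst hN
  ext z
  simp only [Finset.mem_filter, Finset.mem_erase]
  constructor
  · rintro ⟨⟨h1, h2⟩, h3⟩; exact ⟨⟨h1, h2, by omega⟩, h3⟩
  · rintro ⟨⟨h1, h2, _⟩, h3⟩; exact ⟨⟨h1, h2⟩, h3⟩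

/-- the smallest element -/
lemma exists_min_aux (U : Finset ℕ) (M : ℕ) (h : ∃ y ∈ U, y < M) :
    ∃ l ∈ U, l < M ∧ ∀ x ∈ U, l ≤ x := by
  obtain ⟨y, hy, hyM⟩ := h
  have hne : U.Nonempty := ⟨y, hy⟩
  exact ⟨U.min' hne, U.min'_mem hne, lt_of_le_of_lt (U.min'_le y hy) hyM,
    fun x hx => U.min'_le x hx⟩

lemma exists_max_aux (U : Finset ℕ) (M : ℕ) (h : ∃ y ∈ U, y < M) :
    ∃ R ∈ U, R < M ∧ ∀ x ∈ U, x < M → x ≤ R := by
  obtain ⟨y, hy, hyM⟩ := h
  have hne : (U.filter (fun z => z < M)).Nonempty := ⟨y, by simp [hy, hyM]⟩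
  have h1 := (U.filter (fun z => z < M)).max'_mem hne
  rw [Finset.mem_filter] at h1
  exact ⟨_, h1.1, h1.2, fun x hx hxM => Finset.le_max' _ x (by simp [hx, hxM])⟩

theorem struct : ∀ (k : ℕ) (N : Finset ℕ) (M : ℕ), ∃ α β : ℕ, ∀ U : Finset ℕ, U.card = k →
    U.filter (fun y => M ≤ y) = N → (∃ y ∈ U, y < M) →
    cnt true k U M = α * K U 0 M + β * Km U M
  | 0, N, M => ⟨0, 0, fun U hU _ hy => by
      rw [Finset.card_eq_zero] at hU
      subst hU
      obtain ⟨y, hy, _⟩ := hy
      simp at hy⟩
  | (k + 1), N, M => by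
    by_cases hM0 : M = 0
    · exact ⟨0, 0, fun U _ _ hy => by obtain ⟨y, _, hy⟩ := hy; omega⟩
    have hM1 : 1 ≤ M := by omega
    -- the moves above `M`
    have hpush : ∀ x : ℕ, ∃ γ δ : ℕ, ∀ U : Finset ℕ, U.card = k + 1 →
        U.filter (fun y => M ≤ y) = N → (∃ y ∈ U, y < M) → x ∈ U → M ≤ x →
        cnt true k (U.erase x) (max M (upd U x)) = γ * K U 0 M + δ * Km U M := by
      intro x
      obtain ⟨q, hq⟩ : ∃ q, max M (upd (N ∪ Finset.range M) x) = M + q :=
        ⟨max M (upd (N ∪ Finset.range M) x) - M, by have := le_max_left M (upd (N ∪ Finset.range M) x); omega⟩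
      obtain ⟨a, b, hab⟩ := struct k ((N.erase x).filter (fun y => M + q ≤ y)) (M + q)
      obtain ⟨g2, d2, hgd⟩ := Km_lin (N.erase x) M q hM1
      refine ⟨a * K (N.erase x) M q + b * g2,
        a * (if (1 ≤ q ∧ M ∈ N.erase x) then K (N.erase x) (M + 1) (q - 1) else 0) + b * d2,
        fun U hU hN hy hxU hxM => ?_⟩
      rw [upd_eq U N M x hN, hq]
      have e1 := hab (U.erase x) (by rw [Finset.card_erase_of_mem hxU, hU]; rfl)
        (filter_erase_aux U N M (M + q) x hN (by omega)) (by
          obtain ⟨y, h1, h2⟩ := hy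
          exact ⟨y, Finset.mem_erase.2 ⟨by omega, h1⟩, by omega⟩)
      have hl : ∀ z, z < M → (z ∈ U.erase x ↔ z ∈ U) := fun z hz => by
        rw [Finset.mem_erase]; exact ⟨fun h => h.2, fun h => ⟨by omega, h⟩⟩
      have hh : ∀ z, M ≤ z → (z ∈ U.erase x ↔ z ∈ N.erase x) := fun z hz => by
        rw [Finset.mem_erase, Finset.mem_erase, ← hN, Finset.mem_filter]; tauto
      have e2 := K_lin U (U.erase x) (N.erase x) M q hM1 hl hh
      have e3 := hgd U (U.erase x) hl hh
      rw [e1, e2, e3]
      ring
    choose γ δ hγδ using hpush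
    have hsum : ∀ U : Finset ℕ, U.card = k + 1 →
        U.filter (fun y => M ≤ y) = N → (∃ y ∈ U, y < M) →
        ∑ x ∈ U.filter (fun y => M ≤ y), cnt true k (U.erase x) (max M (upd U x)) =
          (∑ x ∈ N, γ x) * K U 0 M + (∑ x ∈ N, δ x) * Km U M := by
      intro U hU hN hy
      rw [Finset.sum_mul, Finset.sum_mul, ← Finset.sum_add_distrib, ← hN]
      apply Finset.sum_congr rfl
      intro x hx
      rw [Finset.mem_filter] at hx
      exact hγδ x U hU hN hy hx.1 hx.2
    by_cases hcase : k = N.card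
    · refine ⟨(∑ x ∈ N, γ x) + cnt true k N M, ∑ x ∈ N, δ x, fun U hU hN hy => ?_⟩
      obtain ⟨l, hl, hlM, hmin⟩ := exists_min_aux U M hy
      rw [cnt_succ, hsum U hU hN hy, act_true U M l hl hmin hlM]
      -- only one element below `M`
      have hone : ∀ z ∈ U, z < M → z = l := by
        intro z hz hzM
        by_contra hne
        have h1 : ({l, z} : Finset ℕ) ∪ N ⊆ U := by
          intro t ht
          rw [Finset.mem_union, Finset.mem_insert, Finset.mem_singleton] at ht
          rcases ht with (rfl | rfl) | ht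
          · exact hl
          · exact hz
          · rw [← hN, Finset.mem_filter] at ht; exact ht.1
        have h2 : Disjoint ({l, z} : Finset ℕ) N := by
          rw [Finset.disjoint_left]
          intro t ht ht2
          rw [← hN, Finset.mem_filter] at ht2
          rw [Finset.mem_insert, Finset.mem_singleton] at ht
          rcases ht with rfl | rfl <;> omega
        have h3 := Finset.card_le_card h1
        rw [Finset.card_union_of_disjoint h2, Finset.card_pair (fun h => hne h.symm), hU] at h3
        omega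
      have e1 : U.erase l = N := by
        rw [← hN]
        ext z
        rw [Finset.mem_erase, Finset.mem_filter]
        constructor
        · rintro ⟨h1, h2⟩
          refine ⟨h2, ?_⟩
          by_contra h3
          exact h1 (hone z h2 (by omega))
        · rintro ⟨h1, h2⟩
          exact ⟨by omega, h1⟩
      rw [e1, if_neg (fun h => by have := hone _ h.1 h.2; omega)]
      have e2 : K U 0 M = 1 := by
        have := K_min U l M hl hmin hlM
        rw [if_neg (fun h => by have := hone _ h.1 h.2; omega), e1] at this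
        rw [← this, Nat.add_zero]
        apply K_empty
        intro x _ hx hxN
        rw [← hN, Finset.mem_filter] at hxN
        omega
      rw [e2]
      ring
    · obtain ⟨a, b, hab⟩ := struct k N M
      refine ⟨(∑ x ∈ N, γ x) + a, (∑ x ∈ N, δ x) + b, fun U hU hN hy => ?_⟩
      obtain ⟨l, hl, hlM, hmin⟩ := exists_min_aux U M hy
      -- at least two elements below `M`
      obtain ⟨z, hz, hzM, hzl⟩ : ∃ z ∈ U, z < M ∧ z ≠ l := by
        by_contra hcon
        push Not at hcon
        apply hcase
        have h1 : U = insert l N := by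
          rw [← hN]
          ext t
          rw [Finset.mem_insert, Finset.mem_filter]
          constructor
          · intro ht
            by_cases h2 : t < M
            · exact Or.inl (hcon t ht h2)
            · exact Or.inr ⟨ht, by omega⟩
          · rintro (rfl | h2)
            · exact hl
            · exact h2.1
        have h2 : l ∉ N := by rw [← hN, Finset.mem_filter]; rintro ⟨_, h⟩; omega
        rw [h1, Finset.card_insert_of_notMem h2] at hU
        omega
      have hlz : l < z := lt_of_le_of_ne (hmin z hz) (Ne.symm hzl)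
      have fN : ∀ x, x < M → (U.erase x).filter (fun y => M ≤ y) = N := by
        intro x hx
        rw [← hN]
        ext t
        simp only [Finset.mem_filter, Finset.mem_erase]
        constructor
        · rintro ⟨⟨_, h1⟩, h2⟩; exact ⟨h1, h2⟩
        · rintro ⟨h1, h2⟩; exact ⟨⟨by omega, h1⟩, h2⟩
      rw [cnt_succ, hsum U hU hN hy, act_true U M l hl hmin hlM]
      have e1 := hab (U.erase l) (by rw [Finset.card_erase_of_mem hl, hU]; rfl) (fN l hlM)
        ⟨z, Finset.mem_erase.2 ⟨hzl, hz⟩, hzM⟩
      have e2 : (if (l + 1 ∈ U ∧ l + 1 < M) then cnt true k (U.erase (l + 1)) M else 0) =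
          a * (if (l + 1 ∈ U ∧ l + 1 < M) then K (U.erase (l + 1)) 0 M else 0) +
          b * (if (l + 1 ∈ U ∧ l + 1 < M) then Km (U.erase (l + 1)) M else 0) := by
        split_ifs with h
        · exact hab (U.erase (l + 1)) (by rw [Finset.card_erase_of_mem h.1, hU]; rfl)
            (fN (l + 1) h.2) ⟨l, Finset.mem_erase.2 ⟨by omega, hl⟩, hlM⟩
        · rfl
      rw [e1, e2, ← K_min U l M hl hmin hlM, ← Km_min U l M hl hmin (by omega)]
      ring

theorem star (k : ℕ) (U : Finset ℕ) (M : ℕ) (hU : U.card = k + 1) :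
    ∑ x ∈ act false U M, cnt true k (U.erase x) M ≤ ∑ x ∈ act true U M, cnt true k (U.erase x) M := by
  by_cases hy : ∃ y ∈ U, y < M
  · obtain ⟨l, hl, hlM, hmin⟩ := exists_min_aux U M hy
    obtain ⟨R, hR, hRM, hmax⟩ := exists_max_aux U M hy
    rw [act_true U M l hl hmin hlM, act_false U M R hR hRM hmax]
    have hlR : l ≤ R := hmin R hR
    by_cases hlR2 : l = R
    · subst hlR2
      rw [if_neg (fun h => by have := hmin _ h.2; omega)]
      exact le_trans (le_of_eq (add_zero _)) (Nat.le_add_right _ _)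
    · obtain ⟨a, b, hab⟩ := struct k (U.filter (fun y => M ≤ y)) M
      have fN : ∀ x, x < M → (U.erase x).filter (fun y => M ≤ y) = U.filter (fun y => M ≤ y) := by
        intro x hx
        ext t
        simp only [Finset.mem_filter, Finset.mem_erase]
        constructor
        · rintro ⟨⟨_, h1⟩, h2⟩; exact ⟨h1, h2⟩
        · rintro ⟨h1, h2⟩; exact ⟨⟨by omega, h1⟩, h2⟩
      have e1 := hab (U.erase l) (by rw [Finset.card_erase_of_mem hl, hU]; rfl) (fN l hlM)
        ⟨R, Finset.mem_erase.2 ⟨fun h => hlR2 h.symm, hR⟩, hRM⟩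
      have e2 : (if (l + 1 ∈ U ∧ l + 1 < M) then cnt true k (U.erase (l + 1)) M else 0) =
          a * (if (l + 1 ∈ U ∧ l + 1 < M) then K (U.erase (l + 1)) 0 M else 0) +
          b * (if (l + 1 ∈ U ∧ l + 1 < M) then Km (U.erase (l + 1)) M else 0) := by
        split_ifs with h
        · exact hab (U.erase (l + 1)) (by rw [Finset.card_erase_of_mem h.1, hU]; rfl)
            (fN (l + 1) h.2) ⟨l, Finset.mem_erase.2 ⟨by omega, hl⟩, hlM⟩
        · rfl
      have e3 := hab (U.erase R) (by rw [Finset.card_erase_of_mem hR, hU]; rfl) (fN R hRM)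
        ⟨l, Finset.mem_erase.2 ⟨hlR2, hl⟩, hlM⟩
      have e4 : (if (1 ≤ R ∧ R - 1 ∈ U) then cnt true k (U.erase (R - 1)) M else 0) =
          a * (if (1 ≤ R ∧ R - 1 ∈ U) then K (U.erase (R - 1)) 0 M else 0) +
          b * (if (1 ≤ R ∧ R - 1 ∈ U) then Km (U.erase (R - 1)) M else 0) := by
        split_ifs with h
        · exact hab (U.erase (R - 1)) (by rw [Finset.card_erase_of_mem h.2, hU]; rfl)
            (fN (R - 1) (by omega)) ⟨R, Finset.mem_erase.2 ⟨by omega, hR⟩, hRM⟩
        · rfl
      rw [e1, e2, e3, e4]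
      have h1 := K_min U l M hl hmin hlM
      have h2 := Km_min U l M hl hmin (by omega)
      have h3 := (K_max U R M hR hRM hmax).1
      have h4 := Km_max U R M hR hRM hmax
      calc _ = a * (K (U.erase R) 0 M +
              (if (1 ≤ R ∧ R - 1 ∈ U) then K (U.erase (R - 1)) 0 M else 0)) +
            b * (Km (U.erase R) M +
              (if (1 ≤ R ∧ R - 1 ∈ U) then Km (U.erase (R - 1)) M else 0)) := by ring
        _ ≤ a * K U 0 M + b * Km U M := by
            rw [h3]; exact Nat.add_le_add_left (Nat.mul_le_mul_left _ h4) _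
        _ = _ := by rw [← h1, ← h2]; ring
  · push Not at hy
    have : act false U M = ∅ := by
      unfold act
      rw [Finset.filter_eq_empty_iff]
      rintro x hx ⟨h1, _⟩
      have := hy x hx
      omega
    rw [this]; simp

theorem cnt_le : ∀ (k : ℕ) (U : Finset ℕ) (M : ℕ), U.card = k → cnt false k U M ≤ cnt true k U M
  | 0, _, _, _ => le_rfl
  | (k + 1), U, M, hU => by
    rw [cnt_succ, cnt_succ]
    apply Nat.add_le_add
    · apply Finset.sum_le_sum
      intro x hx
      rw [Finset.mem_filter] at hx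
      exact cnt_le k _ _ (by rw [Finset.card_erase_of_mem hx.1, hU]; rfl)
    · refine le_trans (Finset.sum_le_sum (fun x hx => ?_)) (star k U M hU)
      unfold act at hx
      rw [Finset.mem_filter] at hx
      exact cnt_le k _ _ (by rw [Finset.card_erase_of_mem hx.1, hU]; rfl)

/-- strictness propagates along moves above the threshold -/
theorem cnt_lt (k : ℕ) (U : Finset ℕ) (M : ℕ) (hU : U.card = k + 1) (x : ℕ) (hx : x ∈ U)
    (hxM : M ≤ x) (h : cnt false k (U.erase x) (max M (upd U x)) <
      cnt true k (U.erase x) (max M (upd U x))) :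
    cnt false (k + 1) U M < cnt true (k + 1) U M := by
  rw [cnt_succ, cnt_succ]
  apply Nat.add_lt_add_of_lt_of_le
  · apply Finset.sum_lt_sum
    · intro y hy
      rw [Finset.mem_filter] at hy
      exact cnt_le k _ _ (by rw [Finset.card_erase_of_mem hy.1, hU]; rfl)
    · exact ⟨x, by rw [Finset.mem_filter]; exact ⟨hx, hxM⟩, h⟩
  · refine le_trans (Finset.sum_le_sum (fun y hy => ?_)) (star k U M hU)
    unfold act at hy
    rw [Finset.mem_filter] at hy
    exact cnt_le k _ _ (by rw [Finset.card_erase_of_mem hy.1, hU]; rfl)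

end Pool.Agent.Helper166_DP
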