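import Pool.Agent.Helper166_DP.K

/-!
# The two processes

`cnt f k U M`: number of ways of emptying `U` when elements below `M` may only be removed
near the smallest element (`f = true`) or near the largest element below `M` (`f = false`).
-/

set_option autoImplicit false

namespace Pool.Agent.Helper166_DP

/-- the pair `(x, y)`, in this order, is forbidden -/
def c (f : Bool) (M x y : ℕ) : Prop :=
  if f = true then (x < M ∧ y + 2 ≤ x) else (y < M ∧ x + 2 ≤ y)

instance (f : Bool) (M x y : ℕ) : Decidable (c f M x y) := by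
  unfold c; infer_instance

lemma c_true (M x y : ℕ) : c true M x y ↔ (x < M ∧ y + 2 ≤ x) := by simp [c]
lemma c_false (M x y : ℕ) : c false M x y ↔ (y < M ∧ x + 2 ≤ y) := by simp [c]

def upd (U : Finset ℕ) (z : ℕ) : ℕ :=
  ((Finset.range z).filter (fun a => a ∉ U ∧ a + 2 ≤ z)).sup (fun a => a - 1)

lemma lt_upd (U : Finset ℕ) (z x : ℕ) : x < upd U z ↔ ∃ a, a ∉ U ∧ a + 2 ≤ z ∧ x + 2 ≤ a := by
  unfold upd
  rw [Finset.lt_sup_iff]
  constructor
  · rintro ⟨a, ha, hx⟩
    rw [Finset.mem_filter, Finset.mem_range] at ha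
    exact ⟨a, ha.2.1, ha.2.2, by omega⟩
  · rintro ⟨a, h1, h2, h3⟩
    exact ⟨a, by rw [Finset.mem_filter, Finset.mem_range]; exact ⟨by omega, h1, h2⟩, by omega⟩

lemma upd_le (U : Finset ℕ) (z : ℕ) : upd U z ≤ z := by
  by_contra h
  have h1 : z < upd U z := not_le.mp h
  rw [lt_upd] at h1
  obtain ⟨a, _, h2, h3⟩ := h1
  omega

def cnt (f : Bool) : ℕ → Finset ℕ → ℕ → ℕ
  | 0, _, _ => 1
  | (k + 1), U, M => ∑ x ∈ U.filter (fun x => ∀ y ∈ U, ¬ c f M x y),
      cnt f k (U.erase x) (max M (upd U x))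

/-- candidates below `M` -/
def act (f : Bool) (U : Finset ℕ) (M : ℕ) : Finset ℕ :=
  U.filter (fun x => x < M ∧ ∀ y ∈ U, ¬ c f M x y)

lemma cnt_succ (f : Bool) (k : ℕ) (U : Finset ℕ) (M : ℕ) :
    cnt f (k + 1) U M = ∑ x ∈ U.filter (fun x => M ≤ x), cnt f k (U.erase x) (max M (upd U x)) +
      ∑ x ∈ act f U M, cnt f k (U.erase x) M := by
  rw [cnt, ← Finset.sum_filter_add_sum_filter_not (U.filter (fun x => ∀ y ∈ U, ¬ c f M x y))
    (fun x => M ≤ x), Finset.filter_filter, Finset.filter_filter]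
  congr 1
  · apply Finset.sum_congr _ (fun _ _ => rfl)
    ext x
    simp only [Finset.mem_filter, and_congr_right_iff, and_iff_right_iff_imp]
    intro _ hx y _ hc
    cases f
    · rw [c_false] at hc; omega
    · rw [c_true] at hc; omega
  · unfold act
    apply Finset.sum_congr
    · ext x
      simp only [Finset.mem_filter, not_le]
      tauto
    · intro x hx
      rw [Finset.mem_filter] at hx
      have := upd_le U x
      rw [max_eq_left (by omega)]

/-- contribution of the last adjacency -/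
def Km (U : Finset ℕ) (M : ℕ) : ℕ := if (1 ≤ M ∧ M - 1 ∈ U) then K U 0 (M - 1) else 0

lemma Km_pos (U : Finset ℕ) (M : ℕ) (h : 1 ≤ M) (h' : M - 1 ∈ U) : Km U M = K U 0 (M - 1) := by
  unfold Km; rw [if_pos ⟨h, h'⟩]

lemma Km_neg (U : Finset ℕ) (M : ℕ) (h' : M - 1 ∉ U) : Km U M = 0 := by
  unfold Km; rw [if_neg (fun hh => h' hh.2)]

lemma act_true (U : Finset ℕ) (M l : ℕ) (hl : l ∈ U) (hmin : ∀ x ∈ U, l ≤ x) (hM : l < M)
    (g : ℕ → ℕ) :
    ∑ x ∈ act true U M, g x = g l + (if (l + 1 ∈ U ∧ l + 1 < M) then g (l + 1) else 0) := by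
  have h : act true U M = {l} ∪ (if (l + 1 ∈ U ∧ l + 1 < M) then {l + 1} else ∅) := by
    ext x
    unfold act
    simp only [Finset.mem_filter, c_true, Finset.mem_union, Finset.mem_singleton]
    constructor
    · rintro ⟨h1, h2, h3⟩
      have h4 := h3 l hl
      have h5 := hmin x h1
      by_cases hx : x = l
      · exact Or.inl hx
      · right
        have : x = l + 1 := by omega
        subst this
        rw [if_pos ⟨h1, h2⟩]; simp
    · rintro (rfl | h1)
      · exact ⟨hl, hM, fun y hy hc => by have := hmin y hy; omega⟩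
      · split_ifs at h1 with hc
        · rw [Finset.mem_singleton] at h1
          subst h1
          exact ⟨hc.1, hc.2, fun y hy hc => by have := hmin y hy; omega⟩
        · simp at h1
  rw [h, Finset.sum_union]
  · split_ifs <;> simp
  · split_ifs <;> simp

lemma act_false (U : Finset ℕ) (M R : ℕ) (hR : R ∈ U) (hRM : R < M)
    (hmax : ∀ x ∈ U, x < M → x ≤ R) (g : ℕ → ℕ) :
    ∑ x ∈ act false U M, g x = g R + (if (1 ≤ R ∧ R - 1 ∈ U) then g (R - 1) else 0) := by
  have h : act false U M = {R} ∪ (if (1 ≤ R ∧ R - 1 ∈ U) then {R - 1} else ∅) := by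
    ext x
    unfold act
    simp only [Finset.mem_filter, c_false, Finset.mem_union, Finset.mem_singleton]
    constructor
    · rintro ⟨h1, h2, h3⟩
      have h4 := h3 R hR
      have h5 := hmax x h1 h2
      by_cases hx : x = R
      · exact Or.inl hx
      · right
        have hx1 : x = R - 1 := by omega
        have hR1 : 1 ≤ R := by omega
        subst hx1
        rw [if_pos ⟨hR1, h1⟩]; simp
    · rintro (rfl | h1)
      · exact ⟨hR, hRM, fun y hy hc => by have := hmax y hy hc.1; omega⟩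
      · split_ifs at h1 with hc
        · rw [Finset.mem_singleton] at h1
          subst h1
          exact ⟨hc.2, by omega, fun y hy hc => by have := hmax y hy hc.1; omega⟩
        · simp at h1
  rw [h, Finset.sum_union]
  · split_ifs <;> simp
  · split_ifs with hc
    · rw [Finset.disjoint_singleton]; omega
    · simp

/-- linearity of `K` above `M` -/
lemma K_lin (U V W : Finset ℕ) (M q : ℕ) (hM : 1 ≤ M) (h1 : ∀ z, z < M → (z ∈ V ↔ z ∈ U))
    (h2 : ∀ z, M ≤ z → (z ∈ V ↔ z ∈ W)) :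
    K V 0 (M + q) = K W M q * K U 0 M +
      (if (1 ≤ q ∧ M ∈ W) then K W (M + 1) (q - 1) else 0) * Km U M := by
  obtain ⟨m, rfl⟩ : ∃ m, M = m + 1 := ⟨M - 1, by omega⟩
  cases q with
  | zero =>
    simp only [K_zero, one_mul, Nat.add_zero]
    rw [if_neg (by omega), zero_mul, Nat.add_zero]
    exact K_congr _ _ _ _ (fun x _ hx => h1 x (by omega))
  | succ q =>
    rw [K_split V 0 m q]
    have e1 : K V 0 (m + 1) = K U 0 (m + 1) := K_congr _ _ _ _ (fun x _ hx => h1 x (by omega))
    have e2 : K V 0 m = K U 0 m := K_congr _ _ _ _ (fun x _ hx => h1 x (by omega))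
    have e3 : K V (0 + m + 1) (q + 1) = K W (m + 1) (q + 1) := by
      rw [zero_add]; exact K_congr _ _ _ _ (fun x hx _ => h2 x (by omega))
    have e4 : K V (0 + m + 2) q = K W (m + 1 + 1) q := by
      rw [zero_add]; exact K_congr _ _ _ _ (fun x hx _ => h2 x (by omega))
    rw [e1, e2, e3, e4]
    unfold Km
    have h3 := h1 m (by omega)
    have h4 := h2 (m + 1) (by omega)
    simp only [zero_add, h3, h4, Nat.add_sub_cancel, Nat.le_add_left, true_and]
    by_cases ha : m ∈ U <;> by_cases hb : m + 1 ∈ W <;> simp [ha, hb] <;> ring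

lemma Km_lin (W : Finset ℕ) (M q : ℕ) (hM : 1 ≤ M) : ∃ γ δ : ℕ, ∀ U V : Finset ℕ,
    (∀ z, z < M → (z ∈ V ↔ z ∈ U)) → (∀ z, M ≤ z → (z ∈ V ↔ z ∈ W)) →
    Km V (M + q) = γ * K U 0 M + δ * Km U M := by
  cases q with
  | zero =>
    refine ⟨0, 1, fun U V h1 h2 => ?_⟩
    unfold Km
    have h3 := h1 (M - 1) (by omega)
    simp only [Nat.add_zero, h3, zero_mul, zero_add, one_mul]
    split_ifs
    · exact K_congr _ _ _ _ (fun x _ hx => h1 x (by omega))
    · rfl
  | succ q =>
    by_cases hq : M + q ∈ W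
    · refine ⟨K W M q, (if (1 ≤ q ∧ M ∈ W) then K W (M + 1) (q - 1) else 0),
        fun U V h1 h2 => ?_⟩
      have e : Km V (M + (q + 1)) = K V 0 (M + q) := by
        unfold Km
        have e1 : M + (q + 1) - 1 = M + q := by omega
        rw [e1, if_pos ⟨by omega, (h2 _ (by omega)).2 hq⟩]
      rw [e]
      exact K_lin U V W M q hM h1 h2
    · refine ⟨0, 0, fun U V h1 h2 => ?_⟩
      unfold Km
      have e1 : M + (q + 1) - 1 = M + q := by omega
      rw [e1, if_neg (fun h => hq ((h2 _ (by omega)).1 h.2))]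
      simp

lemma Km_min (U : Finset ℕ) (l M : ℕ) (hl : l ∈ U) (hmin : ∀ x ∈ U, l ≤ x) (hM : l + 1 < M) :
    Km (U.erase l) M + (if (l + 1 ∈ U ∧ l + 1 < M) then Km (U.erase (l + 1)) M else 0)
      = Km U M := by
  by_cases h : M - 1 ∈ U
  · have h1 : M - 1 ∈ U.erase l := Finset.mem_erase.2 ⟨by omega, h⟩
    rw [Km_pos _ M (by omega) h1, Km_pos U M (by omega) h,
      ← K_min U l (M - 1) hl hmin (by omega)]
    congr 1
    by_cases h2 : l + 1 ∈ U
    · by_cases h3 : l + 1 < M - 1
      · rw [if_pos (show l + 1 ∈ U ∧ l + 1 < M from ⟨h2, hM⟩),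
          if_pos (show l + 1 ∈ U ∧ l + 1 < M - 1 from ⟨h2, h3⟩),
          Km_pos _ M (by omega) (Finset.mem_erase.2 ⟨by omega, h⟩)]
      · have h4 : M - 1 = l + 1 := by omega
        rw [if_pos (show l + 1 ∈ U ∧ l + 1 < M from ⟨h2, hM⟩),
          if_neg (show ¬ (l + 1 ∈ U ∧ l + 1 < M - 1) from fun hh => h3 hh.2),
          Km_neg _ M (by rw [h4]; simp)]
    · rw [if_neg (show ¬ (l + 1 ∈ U ∧ l + 1 < M) from fun hh => h2 hh.1),
        if_neg (show ¬ (l + 1 ∈ U ∧ l + 1 < M - 1) from fun hh => h2 hh.1)]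
  · rw [Km_neg _ M (fun hh => h (Finset.mem_of_mem_erase hh)), Km_neg _ M h,
      Km_neg _ M (fun hh => h (Finset.mem_of_mem_erase hh))]
    simp

lemma Km_max (U : Finset ℕ) (R M : ℕ) (hR : R ∈ U) (hRM : R < M)
    (hmax : ∀ x ∈ U, x < M → x ≤ R) :
    Km (U.erase R) M + (if (1 ≤ R ∧ R - 1 ∈ U) then Km (U.erase (R - 1)) M else 0) ≤ Km U M := by
  by_cases h : M - 1 = R
  · have e1 : Km (U.erase R) M = 0 := by
      unfold Km; rw [if_neg]; rintro ⟨_, hh⟩; rw [h] at hh; simp at hh
    have e2 : Km U M = K U 0 R := by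
      unfold Km; rw [h, if_pos ⟨by omega, hR⟩]
    rw [e1, e2, zero_add]
    split_ifs with hc
    · have e3 : Km (U.erase (R - 1)) M = K U 0 (R - 1) := by
        unfold Km
        rw [h, if_pos ⟨by omega, Finset.mem_erase.2 ⟨by omega, hR⟩⟩]
        obtain ⟨s, rfl⟩ : ∃ s, R = s + 1 := ⟨R - 1, by omega⟩
        simp only [Nat.add_sub_cancel]
        have := K_absent (U.erase s) 0 s 0 (by simp)
        rw [Nat.add_zero, K_zero, mul_one] at this
        rw [this]
        exact K_congr _ _ _ _ (fun x h1 h2 => by simp; intro _; omega)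
      rw [e3]
      obtain ⟨s, rfl⟩ : ∃ s, R = s + 1 := ⟨R - 1, by omega⟩
      simp only [Nat.add_sub_cancel]
      exact K_mono U 0 s
    · exact Nat.zero_le _
  · have h0 : M - 1 ∉ U := fun hh => by have := hmax _ hh (by omega); omega
    have h1 : ∀ x, Km (U.erase x) M = 0 := fun x => by
      unfold Km; rw [if_neg]; rintro ⟨_, hh⟩; exact h0 (Finset.mem_of_mem_erase hh)
    rw [h1, h1]; simp

end Pool.Agent.Helper166_DP
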