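import Pool.Agent.Helper166_DP.Main

/-! # Strictness for `n ≥ 8` -/

set_option autoImplicit false

namespace Pool.Agent.Helper166_DP

theorem base : cnt false 6 {0, 1, 2, 3, 5, 7} 3 < cnt true 6 {0, 1, 2, 3, 5, 7} 3 := by
  decide +kernel

theorem upd_range (n x : ℕ) (hx : x ≤ n) : upd (Finset.range n) x = 0 := by
  by_contra h
  have h1 : 0 < upd (Finset.range n) x := Nat.pos_of_ne_zero h
  rw [lt_upd] at h1
  obtain ⟨a, h1, h2, _⟩ := h1
  rw [Finset.mem_range] at h1
  omega

theorem cnt_lt_range : ∀ n, 8 ≤ n → cnt false n (Finset.range n) 0 < cnt true n (Finset.range n) 0 := by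
  intro n hn
  induction n, hn using Nat.le_induction with
  | base =>
    apply cnt_lt 7 (Finset.range 8) 0 (by simp) 4 (by simp) (by omega)
    have e1 : (Finset.range 8).erase 4 = {0, 1, 2, 3, 5, 6, 7} := by decide
    have e2 : max 0 (upd (Finset.range 8) 4) = 0 := by decide
    rw [e1, e2]
    apply cnt_lt 6 _ 0 (by decide) 6 (by decide) (by omega)
    have e3 : ({0, 1, 2, 3, 5, 6, 7} : Finset ℕ).erase 6 = {0, 1, 2, 3, 5, 7} := by decide
    have e4 : max 0 (upd ({0, 1, 2, 3, 5, 6, 7} : Finset ℕ) 6) = 3 := by decide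
    rw [e3, e4]
    exact base
  | succ n hn ih =>
    apply cnt_lt n (Finset.range (n + 1)) 0 (by simp) n (by simp) (by omega)
    have e1 : (Finset.range (n + 1)).erase n = Finset.range n := by
      ext z; simp only [Finset.mem_erase, Finset.mem_range]; omega
    rw [upd_range (n + 1) n (by omega), e1]
    exact ih

end Pool.Agent.Helper166_DP
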