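import Pool.Agent.Helper166_DP.Proc

/-! # Words: orderings of `U` counted by `cnt` -/

set_option autoImplicit false

namespace Pool.Agent.Helper166_DP

def words (f : Bool) : ℕ → Finset ℕ → ℕ → Finset (List ℕ)
  | 0, _, _ => {[]}
  | (k + 1), U, M => (U.filter (fun x => ∀ y ∈ U, ¬ c f M x y)).biUnion
      (fun x => (words f k (U.erase x) (max M (upd U x))).image (List.cons x))

theorem card_words (f : Bool) : ∀ k U M, (words f k U M).card = cnt f k U M
  | 0, _, _ => rfl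
  | (k + 1), U, M => by
    rw [words, cnt, Finset.card_biUnion]
    · apply Finset.sum_congr rfl
      intro x _
      rw [Finset.card_image_of_injective _ (List.cons_injective), card_words f k]
    · intro x _ y _ hxy
      rw [Function.onFun, Finset.disjoint_left]
      intro l h1 h2
      rw [Finset.mem_image] at h1 h2
      obtain ⟨_, _, rfl⟩ := h1
      obtain ⟨_, _, h3⟩ := h2
      exact hxy (List.cons_eq_cons.1 h3).1.symm

lemma c_max (f : Bool) (U : Finset ℕ) (M z x y : ℕ) : c f (max M (upd U z)) x y ↔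
    c f M x y ∨ ∃ a, a ∉ U ∧ a + 2 ≤ z ∧ c f (a - 1) x y := by
  cases f
  · simp only [c_false, lt_max_iff, lt_upd]
    constructor
    · rintro ⟨h1 | ⟨a, h1, h2, h3⟩, h⟩
      · exact Or.inl ⟨h1, h⟩
      · exact Or.inr ⟨a, h1, h2, by omega, h⟩
    · rintro (⟨h1, h⟩ | ⟨a, h1, h2, h3, h⟩)
      · exact ⟨Or.inl h1, h⟩
      · exact ⟨Or.inr ⟨a, h1, h2, by omega⟩, h⟩
  · simp only [c_true, lt_max_iff, lt_upd]
    constructor
    · rintro ⟨h1 | ⟨a, h1, h2, h3⟩, h⟩
      · exact Or.inl ⟨h1, h⟩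
      · exact Or.inr ⟨a, h1, h2, by omega, h⟩
    · rintro (⟨h1, h⟩ | ⟨a, h1, h2, h3, h⟩)
      · exact ⟨Or.inl h1, h⟩
      · exact ⟨Or.inr ⟨a, h1, h2, by omega⟩, h⟩

lemma c_self (f : Bool) (M x : ℕ) : ¬ c f M x x := by
  cases f
  · rw [c_false]; omega
  · rw [c_true]; omega

/-- the ordering `p` of `U` has a forbidden configuration -/
def Bad (f : Bool) (U : Finset ℕ) (M : ℕ) (p : List ℕ) : Prop :=
  (∃ x y, List.Sublist [x, y] p ∧ c f M x y) ∨
  (∃ a b x y, a ∉ U ∧ List.Sublist [b, x, y] p ∧ a + 2 ≤ b ∧ c f (a - 1) x y) ∨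
  (∃ a b x y, List.Sublist [a, b, x, y] p ∧ a + 2 ≤ b ∧ c f (a - 1) x y)

lemma sub_cons (a z : ℕ) (l p : List ℕ) : List.Sublist (a :: l) (z :: p) ↔
    List.Sublist (a :: l) p ∨ (a = z ∧ List.Sublist l p) := by
  constructor
  · intro h
    cases h with
    | cons _ h => exact Or.inl h
    | cons_cons _ h => exact Or.inr ⟨rfl, h⟩
  · rintro (h | ⟨rfl, h⟩)
    · exact h.cons z
    · exact h.cons_cons a

lemma bad_cons (f : Bool) (U : Finset ℕ) (M z : ℕ) (p : List ℕ) (hz : z ∈ U) :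
    Bad f U M (z :: p) ↔ (∃ y ∈ p, c f M z y) ∨ Bad f (U.erase z) (max M (upd U z)) p := by
  unfold Bad
  simp only [sub_cons, List.singleton_sublist]
  constructor
  · rintro (⟨x, y, h | ⟨rfl, h⟩, hc⟩ | ⟨a, b, x, y, ha, h | ⟨rfl, h⟩, hab, hc⟩ |
      ⟨a, b, x, y, h | ⟨rfl, h⟩, hab, hc⟩)
    · exact Or.inr (Or.inl ⟨x, y, h, (c_max f U M z x y).2 (Or.inl hc)⟩)
    · exact Or.inl ⟨y, h, hc⟩
    · exact Or.inr (Or.inr (Or.inl ⟨a, b, x, y, fun hh => ha (Finset.mem_of_mem_erase hh),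
        h, hab, hc⟩))
    · exact Or.inr (Or.inl ⟨x, y, h, (c_max f U M b x y).2 (Or.inr ⟨a, ha, hab, hc⟩)⟩)
    · exact Or.inr (Or.inr (Or.inr ⟨a, b, x, y, h, hab, hc⟩))
    · exact Or.inr (Or.inr (Or.inl ⟨a, b, x, y, by simp, h, hab, hc⟩))
  · rintro (⟨y, h, hc⟩ | ⟨x, y, h, hc⟩ | ⟨a, b, x, y, ha, h, hab, hc⟩ | ⟨a, b, x, y, h, hab, hc⟩)
    · exact Or.inl ⟨z, y, Or.inr ⟨rfl, h⟩, hc⟩
    · rcases (c_max f U M z x y).1 hc with hc | ⟨a, ha, haz, hc⟩
      · exact Or.inl ⟨x, y, Or.inl h, hc⟩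
      · exact Or.inr (Or.inl ⟨a, z, x, y, ha, Or.inr ⟨rfl, h⟩, haz, hc⟩)
    · by_cases haU : a ∈ U
      · have haz : a = z := by
          by_contra hne
          exact ha (Finset.mem_erase.2 ⟨hne, haU⟩)
        exact Or.inr (Or.inr ⟨a, b, x, y, Or.inr ⟨haz, h⟩, hab, hc⟩)
      · exact Or.inr (Or.inl ⟨a, b, x, y, haU, Or.inl h, hab, hc⟩)
    · exact Or.inr (Or.inr ⟨a, b, x, y, Or.inl h, hab, hc⟩)

theorem mem_words (f : Bool) : ∀ (k : ℕ) (U : Finset ℕ) (M : ℕ) (p : List ℕ), U.card = k →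
    (p ∈ words f k U M ↔ p.Nodup ∧ p.toFinset = U ∧ ¬ Bad f U M p)
  | 0, U, M, p, hU => by
    rw [Finset.card_eq_zero] at hU
    subst hU
    rw [words, Finset.mem_singleton]
    constructor
    · rintro rfl
      refine ⟨List.nodup_nil, rfl, ?_⟩
      rintro (⟨x, y, h, _⟩ | ⟨a, b, x, y, _, h, _⟩ | ⟨a, b, x, y, h, _⟩) <;> simp at h
    · rintro ⟨_, h, _⟩
      exact List.toFinset_eq_empty_iff p |>.1 h
  | (k + 1), U, M, p, hU => by
    rw [words, Finset.mem_biUnion]
    constructor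
    · rintro ⟨x, hx, hp⟩
      rw [Finset.mem_filter] at hx
      rw [Finset.mem_image] at hp
      obtain ⟨p', hp', rfl⟩ := hp
      rw [mem_words f k (U.erase x) _ p' (by rw [Finset.card_erase_of_mem hx.1, hU]; rfl)] at hp'
      obtain ⟨h1, h2, h3⟩ := hp'
      have hxp : x ∉ p' := fun h => by
        rw [← List.mem_toFinset, h2] at h
        simp at h
      refine ⟨List.nodup_cons.2 ⟨hxp, h1⟩, ?_, ?_⟩
      · rw [List.toFinset_cons, h2, Finset.insert_erase hx.1]
      · rw [bad_cons f U M x p' hx.1]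
        rintro (⟨y, hy, hc⟩ | h)
        · refine hx.2 y ?_ hc
          rw [← List.mem_toFinset, h2] at hy
          exact Finset.mem_of_mem_erase hy
        · exact h3 h
    · rintro ⟨h1, h2, h3⟩
      cases p with
      | nil => rw [← h2] at hU; simp at hU
      | cons x p' =>
        rw [List.nodup_cons] at h1
        have hxU : x ∈ U := by rw [← h2]; simp
        have h4 : p'.toFinset = U.erase x := by
          rw [← h2, List.toFinset_cons, Finset.erase_insert]
          rw [List.mem_toFinset]; exact h1.1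
        rw [bad_cons f U M x p' hxU, not_or] at h3
        refine ⟨x, ?_, ?_⟩
        · rw [Finset.mem_filter]
          refine ⟨hxU, fun y hy hc => ?_⟩
          by_cases hyx : y = x
          · subst hyx; exact c_self f M y hc
          · apply h3.1
            refine ⟨y, ?_, hc⟩
            rw [← List.mem_toFinset, h4]
            exact Finset.mem_erase.2 ⟨hyx, hy⟩
        · rw [Finset.mem_image]
          refine ⟨p', ?_, rfl⟩
          rw [mem_words f k (U.erase x) _ p' (by rw [Finset.card_erase_of_mem hxU, hU]; rfl)]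
          exact ⟨h1.2, h4, h3.2⟩

end Pool.Agent.Helper166_DP
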